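import Pool.Agent.Run7.h16.GE.K1

/-!
Extensions with detected kernels, and the rational injectivity of the assembly maps in algebraic
`K`-theory, for an arbitrary coefficient ring.

`R` is any ring, `rat (kgr R)` is the functor `G ↦ ℚ ⊗ K₁(R[G])`, and `hq j` is the functor
`G ↦ H_j(G; ℚ)`. The class `𝒦_R` is the class of the groups `G` with `DetK R G`: for every group `T` and
every family of transformations `α_{j,i} : H_j(G; ℚ) → ℚ ⊗ K₁(R[G × T])`, `i ∈ I_j`, natural in the
group `G`, such that the `α_{j,i}`, `i ∈ I_j`, are linearly independent on `ℤ^j` for each `j`, the sum
of all the `α_{j,i}` is injective on `G`. The components `H_j(G; ℚ) ⊗ K_{1-j}(R) → K₁(R[G]) ⊗ ℚ` of the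
rational assembly map form such a family (`i` runs through a basis of `K_{1-j}(R) ⊗ ℚ`; they are
independent on `ℤ^j` by the fundamental theorem of algebraic `K`-theory), and the groups
`K_n(R[G])`, `n ≤ 1`, are direct summands of `K₁(R[ℤ^m][G])`. So for a torsion-free group in the class
(for all `R`) the Farrell–Jones assembly map for a regular ring `R`, and more generally the classical
assembly map of Loday for any ring `R`, is rationally injective in degrees `n ≤ 1`.

Let `H` be a subgroup of finite index in `G`, and let `K` be a normal subgroup of `H` such that `H / K`
is in the class. Then `G` is in the class in each of the following cases: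

* for each nonzero `x ∈ H_j(K; ℚ)` there is a homomorphism `φ` from `H` to a group in the class
  with `φ_*(x) ≠ 0`;
* `H_j(K; ℚ) → H_j(K^{ab}; ℚ)` is injective for all `j`, `K^{ab} ⊗ ℚ → H^{ab} ⊗ ℚ` is injective, and
  `H^{ab}` is in the class (this holds if `H` is finitely generated);
* `H_j(K; ℚ) = 0` for `j ≥ 2`, `K^{ab} ⊗ ℚ → H^{ab} ⊗ ℚ` is injective, and `H^{ab}` is in the class.

For instance `G` may be a semidirect product `K ⋊ Q` where `K` is a free group (of any rank), a surface
group or a right-angled Artin group, a subgroup of finite index of `Q` is in the class, and `Q` acts on
`K^{ab} ⊗ ℚ` through this finite quotient (and `K`, `Q` are finitely generated). There is no assumption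
on the quotient `H / K` beyond the rational injectivity (no Farrell–Jones conjecture with
coefficients), and none on the geometry of `K`.

Outline of the proof. For each `ℚ[H / K]`-module `M`, a class of `H_j(H; M)` which dies in all groups
`H_j(A × H / K; M)` is zero (here `φ : H → A` runs through the homomorphisms to groups in the class).
This is proved by dimension shifting: the induction shows that the class comes from `H_j(K; M)`; then
one uses the detection of `H_j(K; ℚ)` and the triviality of the action of `H` on it. (The homological
part is that of my result `MP_01534c_gt` DetectedExtensions on the higher signatures.)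
-/

namespace Pool.Agent.Results.MP_6374fb_al.DetectedExtensions

open Run7.h16.GE Pool.Agent.R615.KU

theorem result (R : Type) [Ring R] : ClosedExtensions (fun G _ => DetK R G) := extClosed_detK R

end Pool.Agent.Results.MP_6374fb_al.DetectedExtensions
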