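import Pool.Agent.Run7.h550.TK.RV4

/-!
# All extensions whose kernel is a graph product of groups with property FA

`C` is any class of groups with the closure properties `ClosedE C` which contains the groups `F ⋊ ℤ` for
all free groups `F` of any rank and all automorphisms of `F`. All this is published for the class of
groups which satisfy the `K`-theoretic Farrell–Jones conjecture with coefficients in additive
categories and finite wreath products (the groups `F ⋊ ℤ` are due to Bestvina–Fujiwara–Wigglesworth and
Brück–Kielak–Wu).

`Ext C N` says that every group `G` with a normal subgroup isomorphic to `N` and with quotient in `C` is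
in `C`; no condition is imposed on the action of `G` on the kernel, so this is a statement on the
mapping tori of all automorphisms of `N`.

Let `N` be the graph product of the nontrivial groups `A v` along the finite graph `Γ`, and suppose
that all vertex groups have property FA of Serre (every action on a tree without inversions has a
fixed vertex).

1. If `Ext C` holds for the direct product of the vertex groups of each maximal clique, then it holds
   for `N`.
2. If the vertex groups are centreless and directly indecomposable, it suffices that `Ext C` holds for
   each of them.
3. In 2. one may add finite vertex groups, if the vertex groups are finitely generated and have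
   finitely many conjugacy classes of elements of finite order.
4. `Ext C A` holds for every group `A` in `C` such that each automorphism of `A` has a positive power
   that is inner.

For instance all lattices with trivial centre in higher rank simple Lie groups with property (T) may be
vertex groups (property (T) implies FA, the conjecture is known for them, and their outer
automorphism groups are finite).

Outline of the proof of 1. An automorphism `φ` maps the subgroup `N_K` of a maximal clique `K` onto a
conjugate of `N_{K'}` for some maximal clique `K'`, because direct products of groups with property FA
have property FA and subgroups with property FA are conjugate into the `N_K` (Bass–Serre trees of the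
amalgamated products for pairs of vertices that are not adjacent). So a power of `φ` preserves the
conjugacy classes of all `N_K`, and also those of `N_L` for all intersections `L` of maximal cliques.
If the intersection `Z` of all maximal cliques is not empty, `N` is the direct product of `N_Z` and a
smaller graph product, and `N_Z` is preserved by a power of `φ`. Otherwise take a minimal nonempty
intersection `L` of maximal cliques and a maximal clique `K` with `K ∩ L = ∅`. All vertices of `L` have
the same neighbours outside `L`, so `N` is the amalgamated product of the subgroup of the complement
of `L` and of `N_L` times the subgroup of these neighbours; the intersection of the normal closures of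
`N_L` and `N_K` acts freely on the tree of this decomposition, so it is a free group, and the quotients
of `N` by the two normal closures are smaller graph products.
-/

set_option autoImplicit false

namespace Pool.Agent.Results.MP_6374fb_al.KernelsWithPropertyFA

open Pool.Agent.Y110.FJ (ClosedE)
open Run7.h550.TK (IsGraphProduct FA Centreless Indec FinTor Ext)

theorem result (C : ∀ (G : Type) [Group G], Prop) (hC : ClosedE C)
    (hF : ∀ (X : Type) (α : MulAut (FreeGroup X)),
      C (FreeGroup X ⋊[zpowersHom (MulAut (FreeGroup X)) α] Multiplicative ℤ)) :
    (∀ (N V : Type) [Group N] [Finite V] (Γ : SimpleGraph V) (A : V → Subgroup N),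
      IsGraphProduct Γ A → (∀ v, A v ≠ ⊥) → (∀ v, FA (A v)) →
      (∀ K : Set V, Maximal Γ.IsClique K → Ext C ↥(⨆ v ∈ K, A v)) → Ext C N) ∧
    (∀ (N V : Type) [Group N] [Finite V] (Γ : SimpleGraph V) (A : V → Subgroup N),
      IsGraphProduct Γ A → (∀ v, A v ≠ ⊥) → (∀ v, FA (A v)) → (∀ v, Centreless (A v)) →
      (∀ v, Indec (A v)) → (∀ v, Ext C (A v)) → Ext C N) ∧
    (∀ (N V : Type) [Group N] [Finite V] (Γ : SimpleGraph V) (A : V → Subgroup N),
      IsGraphProduct Γ A → (∀ v, Group.FG (A v)) → (∀ v, FinTor (A v)) →
      (∀ v, Finite (A v) ∨ (FA (A v) ∧ Centreless (A v) ∧ Indec (A v) ∧ Ext C (A v))) →
      Ext C N) ∧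
    (∀ (A : Type) [Group A], C A →
      (∀ φ : MulAut A, ∃ k : ℕ, 0 < k ∧ ∃ a : A, φ ^ k = MulAut.conj a) → Ext C A) := by
  refine ⟨?_, ?_, ?_, ?_⟩
  · intro N V _ _ Γ A h hne hfa hcl
    exact Run7.h550.TK.fa_main hC hF h hne hfa hcl
  · intro N V _ _ Γ A h hne hfa hz hi hE
    exact Run7.h550.TK.rigid_main hC hF h hne hfa hz hi hE
  · intro N V _ _ Γ A h hfg hft hA
    exact Run7.h550.TK.mixed_main hC hF h hfg hft hA
  · intro A _ hA h
    exact Run7.h550.TK.ext_inner hC hA h

end Pool.Agent.Results.MP_6374fb_al.KernelsWithPropertyFA
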